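import Pool.Agent.ZES.StmtsK

/-!
ZES, row ALI (the algebra of the gauge). helper5.
-/

namespace Pool.Agent.ZES.H5

open scoped BigOperators
open Pool.Agent.THS Pool.Agent.ZES Matrix

variable {g : ℕ}

/-- the bilinear form of the matrix `A` -/
noncomputable def D (A : Matrix (Fin g) (Fin g) ℂ) (x y : Fin g → ℂ) : ℂ :=
  ∑ i, ∑ j, x i * A i j * y j

theorem D_eq (A : Matrix (Fin g) (Fin g) ℂ) (x y : Fin g → ℂ) : D A x y = x ⬝ᵥ (A *ᵥ y) := by
  unfold D
  simp only [dotProduct, mulVec, Finset.mul_sum, mul_assoc]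

theorem D_add_left (A : Matrix (Fin g) (Fin g) ℂ) (x x' y : Fin g → ℂ) :
    D A (x + x') y = D A x y + D A x' y := by
  rw [D_eq, D_eq, D_eq, add_dotProduct]

theorem D_add_right (A : Matrix (Fin g) (Fin g) ℂ) (x y y' : Fin g → ℂ) :
    D A x (y + y') = D A x y + D A x y' := by
  rw [D_eq, D_eq, D_eq, mulVec_add, dotProduct_add]

theorem D_sub_left (A : Matrix (Fin g) (Fin g) ℂ) (x x' y : Fin g → ℂ) :
    D A (x - x') y = D A x y - D A x' y := by
  rw [D_eq, D_eq, D_eq, sub_dotProduct]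

theorem D_smul_left (A : Matrix (Fin g) (Fin g) ℂ) (c : ℂ) (x y : Fin g → ℂ) :
    D A (c • x) y = c * D A x y := by
  rw [D_eq, D_eq, smul_dotProduct, smul_eq_mul]

theorem D_symm {A : Matrix (Fin g) (Fin g) ℂ} (hA : A.transpose = A) (x y : Fin g → ℂ) :
    D A x y = D A y x := by
  rw [D_eq, D_eq, dotProduct_mulVec, ← mulVec_transpose, hA, dotProduct_comm]

theorem D_key {A T : Matrix (Fin g) (Fin g) ℂ} (hA : A.transpose = A) (hAT : A * T = 1)
    (q x : Fin g → ℂ) : D A (T *ᵥ q) x = q ⬝ᵥ x := by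
  rw [D_symm hA, D_eq, mulVec_mulVec, hAT, one_mulVec, dotProduct_comm]

/-- the complex vector of an integer vector -/
def vc (q : Fin g → ℤ) : Fin g → ℂ := fun i => (q i : ℂ)

theorem pr_eq (τ : Matrix (Fin g) (Fin g) ℂ) (p q : Fin g → ℤ) :
    pr τ p q = vc p + τ *ᵥ vc q := by
  ext i
  unfold pr vc
  rfl

theorem conj_pr (τ : Matrix (Fin g) (Fin g) ℂ) (p q : Fin g → ℤ) :
    (fun i => (starRingEnd ℂ) (pr τ p q i)) =
      pr τ p q - (2 * Complex.I) • (((τ.map Complex.im).map (fun r : ℝ => (r : ℂ))) *ᵥ vc q) := by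
  ext i
  show (starRingEnd ℂ) (pr τ p q i) = pr τ p q i - (2 * Complex.I) *
    ((((τ.map Complex.im).map (fun r : ℝ => (r : ℂ))) *ᵥ vc q) i)
  unfold pr vc mulVec dotProduct
  rw [map_add, map_sum, map_intCast, add_sub_assoc, Finset.mul_sum,
    ← Finset.sum_sub_distrib]
  congr 1
  refine Finset.sum_congr rfl fun j _ => ?_
  rw [map_mul, map_intCast]
  have h1 := Complex.sub_conj (τ i j)
  have h2 : (starRingEnd ℂ) (τ i j) = τ i j - 2 * ((τ i j).im : ℂ) * Complex.I := by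
    have h3 : ((2 * (τ i j).im : ℝ) : ℂ) = 2 * ((τ i j).im : ℂ) := by push_cast; ring
    rw [← h3, ← h1]
    ring
  rw [h2]
  simp only [Matrix.map_apply]
  ring

/-- row ALI -/
theorem ali : AliStmt := by
  intro g τ hτ Y hY p q
  obtain ⟨hs, hp⟩ := hτ
  set A : Matrix (Fin g) (Fin g) ℂ := (Y⁻¹).map (fun r : ℝ => (r : ℂ)) with hAdef
  set T : Matrix (Fin g) (Fin g) ℂ := Y.map (fun r : ℝ => (r : ℂ)) with hTdef
  have hYs : Y.transpose = Y := by
    rw [hY, ← Matrix.transpose_map, hs]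
  have hYp : Y.PosDef := by
    rw [hY]
    exact hp
  have hA : A.transpose = A := by
    rw [hAdef, ← Matrix.transpose_map, Matrix.transpose_nonsing_inv, hYs]
  have hAT : A * T = 1 := by
    have h1 : Y⁻¹ * Y = 1 := Matrix.nonsing_inv_mul _ ((Matrix.isUnit_iff_isUnit_det _).1 hYp.isUnit)
    have h2 := congrArg (fun M : Matrix (Fin g) (Fin g) ℝ => M.map Complex.ofRealHom) h1
    have h3 : (Y⁻¹ * Y).map Complex.ofRealHom = A * T := Matrix.map_mul
    have h4 : (1 : Matrix (Fin g) (Fin g) ℝ).map Complex.ofRealHom = 1 :=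
      Matrix.map_one _ (map_zero _) (map_one _)
    rw [← h3, ← h4]
    exact h2
  have hD : ∀ x y : Fin g → ℂ, (∑ i, ∑ j, x i * ((Y⁻¹ i j : ℝ) : ℂ) * y j) = D A x y :=
    fun x y => rfl
  have hH : ∀ (p q : Fin g → ℤ) (y : Fin g → ℂ),
      (∑ i, ∑ j, (starRingEnd ℂ) (pr τ p q i) * ((Y⁻¹ i j : ℝ) : ℂ) * y j) =
        D A (pr τ p q) y - 2 * Complex.I * (vc q ⬝ᵥ y) := by
    intro p q y
    have h1 : (∑ i, ∑ j, (starRingEnd ℂ) (pr τ p q i) * ((Y⁻¹ i j : ℝ) : ℂ) * y j) =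
        D A (fun i => (starRingEnd ℂ) (pr τ p q i)) y := rfl
    rw [h1, conj_pr, D_sub_left, D_smul_left]
    have h2 : ((τ.map Complex.im).map (fun r : ℝ => (r : ℂ))) = T := by
      rw [hTdef, hY]
    rw [h2, D_key hA hAT]
  have hdot : ∀ p q : Fin g → ℤ, ∀ q' : Fin g → ℤ, vc q' ⬝ᵥ pr τ p q =
      vc q' ⬝ᵥ vc p + D τ (vc q') (vc q) := by
    intro p q q'
    rw [pr_eq, dotProduct_add, D_eq]
  constructor
  · intro x
    rw [hD, hD, hH, hH, hdot, D_add_left, D_add_right, D_add_right,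
      D_symm hA x (pr τ p q)]
    have e1 : (∑ i, (q i : ℂ) * x i) = vc q ⬝ᵥ x := rfl
    have e2 : (∑ i, (p i : ℂ) * (q i : ℂ)) = vc q ⬝ᵥ vc p := by
      rw [dotProduct_comm]
      rfl
    have e3 : (∑ i, ∑ j, (q i : ℂ) * τ i j * (q j : ℂ)) = D τ (vc q) (vc q) := rfl
    rw [e1, e2, e3]
    ring
  · intro p' q'
    set H := ∑ i, ∑ j, (starRingEnd ℂ) (pr τ p q i) * ((Y⁻¹ i j : ℝ) : ℂ) * pr τ p' q' j with hHdef
    have h1 : H = D A (pr τ p q) (pr τ p' q') -
        2 * Complex.I * (vc q ⬝ᵥ vc p' + D τ (vc q) (vc q')) := by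
      rw [hHdef, hH, hdot]
    have h2 : (starRingEnd ℂ) H = D A (pr τ p q) (pr τ p' q') -
        2 * Complex.I * (vc q' ⬝ᵥ vc p + D τ (vc q) (vc q')) := by
      have h4 : ∀ i, (starRingEnd ℂ) (∑ j, (starRingEnd ℂ) (pr τ p q i) *
            ((Y⁻¹ i j : ℝ) : ℂ) * pr τ p' q' j) =
            ∑ j, (starRingEnd ℂ) (pr τ p' q' j) * ((Y⁻¹ j i : ℝ) : ℂ) * pr τ p q i := by
        intro i
        rw [map_sum]
        refine Finset.sum_congr rfl fun j _ => ?_
        rw [map_mul, map_mul, Complex.conj_conj, Complex.conj_ofReal]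
        have h5 : Y⁻¹ i j = Y⁻¹ j i := by
          have h6 : (Y⁻¹).transpose = Y⁻¹ := by
            rw [Matrix.transpose_nonsing_inv, hYs]
          have h7 := congrFun (congrFun h6 j) i
          exact h7
        rw [h5]
        ring
      have h3 : (starRingEnd ℂ) H =
          ∑ i, ∑ j, (starRingEnd ℂ) (pr τ p' q' i) * ((Y⁻¹ i j : ℝ) : ℂ) * pr τ p q j := by
        rw [hHdef, map_sum, Finset.sum_congr rfl fun i _ => h4 i, Finset.sum_comm]
      rw [h3, hH, hdot, D_symm hA, D_symm hs (vc q')]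
    have h8 := Complex.sub_conj H
    have h14 : H - (starRingEnd ℂ) H =
        2 * Complex.I * (vc q' ⬝ᵥ vc p - vc q ⬝ᵥ vc p') := by
      rw [h2, h1]
      ring
    have h9 : ((H.im : ℝ) : ℂ) = vc q' ⬝ᵥ vc p - vc q ⬝ᵥ vc p' := by
      have h10 : ((2 * H.im : ℝ) : ℂ) = 2 * ((H.im : ℝ) : ℂ) := by push_cast; ring
      have h11 : (2 * Complex.I) * ((H.im : ℝ) : ℂ) =
          (2 * Complex.I) * (vc q' ⬝ᵥ vc p - vc q ⬝ᵥ vc p') := by
        rw [← h14, h8, h10]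
        ring
      have h13 : (2 * Complex.I) ≠ 0 := mul_ne_zero two_ne_zero Complex.I_ne_zero
      exact mul_left_cancel₀ h13 h11
    apply Complex.ofReal_injective
    rw [h9]
    push_cast
    rw [Finset.sum_sub_distrib]
    rfl

end Pool.Agent.ZES.H5
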